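import Mathlib
import Pool.Agent.Helper24.UB.Defs

set_option autoImplicit false

/-!
# The identities (I0) - (I5) for the equilibrium form
-/

namespace Pool.Agent.Helper92.UB

open Finset Matrix Pool.Agent.Helper22.Sym
open Pool.Agent.Helper12.LW (LFree chainP)
open Pool.Agent.Helper24.UB (Equi)

lemma symm_move (Q : Matrix (Fin 3) (Fin 3) ℝ) (hQ : Q.PosDef) (x z : Fin 3 → ℝ) :
    x ⬝ᵥ (Q *ᵥ z) = (Q *ᵥ x) ⬝ᵥ z := by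
  have h : Qᵀ = Q := by
    have := hQ.isHermitian
    rwa [IsHermitian, conjTranspose_eq_transpose_of_trivial] at this
  rw [dotProduct_mulVec, ← mulVec_transpose, h]

lemma mul_inv_v (Q : Matrix (Fin 3) (Fin 3) ℝ) (hQ : Q.PosDef) (u : Fin 3 → ℝ) :
    Q *ᵥ (Q⁻¹ *ᵥ u) = u := by
  rw [mulVec_mulVec, mul_nonsing_inv _ hQ.det_pos.ne'.isUnit, one_mulVec]

lemma inv_move (Q : Matrix (Fin 3) (Fin 3) ℝ) (hQ : Q.PosDef) (x z : Fin 3 → ℝ) :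
    x ⬝ᵥ (Q⁻¹ *ᵥ z) = (Q⁻¹ *ᵥ x) ⬝ᵥ z := by
  have h := symm_move Q hQ (Q⁻¹ *ᵥ x) (Q⁻¹ *ᵥ z)
  rw [mul_inv_v Q hQ, mul_inv_v Q hQ] at h
  exact h.symm

lemma toR_dot (r z : Fin 3 → ℤ) : ((r ⬝ᵥ z : ℤ) : ℝ) = toR r ⬝ᵥ toR z := by
  simp [dotProduct, toR]

/-- A difference of two points of the standard simplex pairs with `a` to at most the range. -/
lemma pair_le (a l l' : Fin 4 → ℝ) (hl : ∀ k, 0 ≤ l k) (hl' : ∀ k, 0 ≤ l' k)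
    (hs : ∑ k, l k = 1) (hs' : ∑ k, l' k = 1) (kp km : Fin 4) (hkp : ∀ k, a k ≤ a kp)
    (hkm : ∀ k, a km ≤ a k) : ∑ k, a k * (l k - l' k) ≤ a kp - a km := by
  have h1 : ∑ k, a k * l k ≤ a kp := by
    calc ∑ k, a k * l k ≤ ∑ k, a kp * l k :=
          sum_le_sum fun k _ => mul_le_mul_of_nonneg_right (hkp k) (hl k)
      _ = _ := by rw [← mul_sum, hs, mul_one]
  have h2 : a km ≤ ∑ k, a k * l' k := by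
    calc a km = ∑ k, a km * l' k := by rw [← mul_sum, hs', mul_one]
      _ ≤ ∑ k, a k * l' k :=
          sum_le_sum fun k _ => mul_le_mul_of_nonneg_right (hkm k) (hl' k)
  have : ∑ k, a k * (l k - l' k) = ∑ k, a k * l k - ∑ k, a k * l' k := by
    rw [← sum_sub_distrib]; exact sum_congr rfl fun k _ => by ring
  rw [this]; linarith

/-- (I0) -/
theorem w_spec {K : Set (Fin 3 → ℝ)} {ε : ℝ} {ι : Type} [Fintype ι] (e : Equi K ε ι)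
    (u x : Fin 3 → ℝ) :
    (e.Q⁻¹ *ᵥ u) ⬝ᵥ e.Q *ᵥ x = u ⬝ᵥ x := by
  rw [symm_move e.Q e.hpd, mul_inv_v e.Q e.hpd]

/-- (I1) the normalisation -/
theorem norm_sum {K : Set (Fin 3 → ℝ)} {ε : ℝ} {ι : Type} [Fintype ι] (e : Equi K ε ι)
    (p : Fin 6 → ℝ) (r : Fin 6 → Fin 3 → ℤ)
    (hp : ∀ u v : Fin 3 → ℝ, u ⬝ᵥ e.Q *ᵥ v = ∑ s, p s * ((toR (r s) ⬝ᵥ u) * (toR (r s) ⬝ᵥ v))) :
    ∑ s, p s * ∑ i, e.y i * ∑ k, (e.v i k ⬝ᵥ e.Q⁻¹ *ᵥ toR (r s)) *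
      ((r s ⬝ᵥ chainP (e.f i) (e.z i) (e.σ i) k : ℤ) : ℝ) = 1 := by
  have h1 : ∀ v P : Fin 3 → ℝ, ∑ s, p s * ((v ⬝ᵥ e.Q⁻¹ *ᵥ toR (r s)) * (toR (r s) ⬝ᵥ P))
      = v ⬝ᵥ P := by
    intro v P
    have h := hp (e.Q⁻¹ *ᵥ v) P
    rw [w_spec e] at h
    rw [h]
    apply sum_congr rfl
    intro s _
    rw [inv_move e.Q e.hpd, dotProduct_comm (e.Q⁻¹ *ᵥ v)]
  have h2 : ∀ i, ∑ s, p s * ∑ k, (e.v i k ⬝ᵥ e.Q⁻¹ *ᵥ toR (r s)) *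
      ((r s ⬝ᵥ chainP (e.f i) (e.z i) (e.σ i) k : ℤ) : ℝ) = 1 := by
    intro i
    rw [← e.hv1 i]
    simp only [mul_sum]
    rw [sum_comm]
    apply sum_congr rfl
    intro k _
    rw [← h1 (e.v i k) (toR (chainP (e.f i) (e.z i) (e.σ i) k))]
    apply sum_congr rfl
    intro s _
    rw [toR_dot]
  calc ∑ s, p s * ∑ i, e.y i * ∑ k, (e.v i k ⬝ᵥ e.Q⁻¹ *ᵥ toR (r s)) *
      ((r s ⬝ᵥ chainP (e.f i) (e.z i) (e.σ i) k : ℤ) : ℝ)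
      = ∑ i, e.y i * ∑ s, p s * ∑ k, (e.v i k ⬝ᵥ e.Q⁻¹ *ᵥ toR (r s)) *
      ((r s ⬝ᵥ chainP (e.f i) (e.z i) (e.σ i) k : ℤ) : ℝ) := by
        simp only [mul_sum (s := (univ : Finset ι))]
        rw [sum_comm]
        apply sum_congr rfl
        intro i _
        rw [mul_sum (s := (univ : Finset (Fin 6)))]
        exact sum_congr rfl fun s _ => by ring
    _ = 1 := by simp only [h2, mul_one]; exact e.ysum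

/-- (I2) the width in the direction `u`: `kp i`, `km i` are the places of the maximum and the
minimum. -/
theorem width_le {K : Set (Fin 3 → ℝ)} {ε : ℝ} {ι : Type} [Fintype ι] (e : Equi K ε ι)
    (u : Fin 3 → ℝ) (kp km : ι → Fin 4)
    (hkp : ∀ i k, e.v i k ⬝ᵥ e.Q⁻¹ *ᵥ u ≤ e.v i (kp i) ⬝ᵥ e.Q⁻¹ *ᵥ u)
    (hkm : ∀ i k, e.v i (km i) ⬝ᵥ e.Q⁻¹ *ᵥ u ≤ e.v i k ⬝ᵥ e.Q⁻¹ *ᵥ u)
    (x x' : Fin 3 → ℝ) (hx : x ∈ K) (hx' : x' ∈ K) :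
    u ⬝ᵥ (x - x') ≤ ε * ((e.Q⁻¹ *ᵥ u) ⬝ᵥ (x - x')) +
      ∑ i, e.y i * (e.v i (kp i) ⬝ᵥ e.Q⁻¹ *ᵥ u - e.v i (km i) ⬝ᵥ e.Q⁻¹ *ᵥ u) := by
  rw [← w_spec e u (x - x'), e.hQ]
  have h2 : ∑ i, e.y i * ∑ k, (e.v i k ⬝ᵥ (e.Q⁻¹ *ᵥ u)) * (e.v i k ⬝ᵥ (x - x')) ≤
      ∑ i, e.y i * (e.v i (kp i) ⬝ᵥ e.Q⁻¹ *ᵥ u - e.v i (km i) ⬝ᵥ e.Q⁻¹ *ᵥ u) := by
    apply sum_le_sum
    intro i _
    apply mul_le_mul_of_nonneg_left _ (e.ypos i).le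
    set P : Fin 4 → Fin 3 → ℝ := fun k => toR (chainP (e.f i) (e.z i) (e.σ i) k) with hP
    have hsum : ∀ w : Fin 3 → ℝ, ∑ k, (e.v i k ⬝ᵥ P k - e.v i k ⬝ᵥ w) = 1 := by
      intro w
      rw [sum_sub_distrib, ← sum_dotProduct, e.hv0 i, zero_dotProduct, sub_zero]
      exact e.hv1 i
    have := pair_le (fun k => e.v i k ⬝ᵥ e.Q⁻¹ *ᵥ u)
      (fun k => e.v i k ⬝ᵥ P k - e.v i k ⬝ᵥ x')
      (fun k => e.v i k ⬝ᵥ P k - e.v i k ⬝ᵥ x)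
      (fun k => by have := e.hsep i k x' hx'; simp only [hP]; linarith)
      (fun k => by have := e.hsep i k x hx; simp only [hP]; linarith) (hsum x') (hsum x)
      (kp i) (km i) (hkp i) (hkm i)
    refine le_trans (le_of_eq ?_) this
    apply sum_congr rfl
    intro k _
    rw [dotProduct_sub]; ring
  linarith

/-- (I3) -/
theorem kappa_eq {K : Set (Fin 3 → ℝ)} {ε : ℝ} {ι : Type} [Fintype ι] (e : Equi K ε ι)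
    (u : Fin 3 → ℝ) :
    u ⬝ᵥ e.Q⁻¹ *ᵥ u = ε * ((e.Q⁻¹ *ᵥ u) ⬝ᵥ (e.Q⁻¹ *ᵥ u)) +
      ∑ i, e.y i * ∑ k, (e.v i k ⬝ᵥ e.Q⁻¹ *ᵥ u) ^ 2 := by
  have h := w_spec e u (e.Q⁻¹ *ᵥ u)
  rw [e.hQ] at h
  rw [← h]
  congr 1
  exact sum_congr rfl fun i _ => by
    congr 1
    exact sum_congr rfl fun k _ => by ring

/-- (I4) the trace -/
theorem kappa_sum (Q : Matrix (Fin 3) (Fin 3) ℝ) (hQ : Q.PosDef) (p : Fin 6 → ℝ)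
    (r : Fin 6 → Fin 3 → ℤ)
    (hp : ∀ u v : Fin 3 → ℝ, u ⬝ᵥ Q *ᵥ v = ∑ s, p s * ((toR (r s) ⬝ᵥ u) * (toR (r s) ⬝ᵥ v))) :
    ∑ s, p s * (toR (r s) ⬝ᵥ Q⁻¹ *ᵥ toR (r s)) = 3 := by
  have h1 : ∀ s, toR (r s) ⬝ᵥ Q⁻¹ *ᵥ toR (r s) =
      ∑ j : Fin 3, (toR (r s) ⬝ᵥ Pi.single j 1) * (toR (r s) ⬝ᵥ Q⁻¹ *ᵥ Pi.single j 1) := by
    intro s
    have : ∀ j : Fin 3, toR (r s) ⬝ᵥ Q⁻¹ *ᵥ Pi.single j 1 = (Q⁻¹ *ᵥ toR (r s)) j := by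
      intro j
      rw [inv_move Q hQ, dotProduct_single_one]
    simp_rw [this, dotProduct_single_one]
    rfl
  simp_rw [h1, mul_sum]
  rw [sum_comm]
  have h2 : ∀ j : Fin 3, ∑ s, p s * ((toR (r s) ⬝ᵥ Pi.single j 1) *
      (toR (r s) ⬝ᵥ Q⁻¹ *ᵥ Pi.single j 1)) = 1 := by
    intro j
    rw [← hp, mul_inv_v Q hQ]
    simp
  simp_rw [h2]
  simp

/-- (I5) -/
theorem kappa_le (Q : Matrix (Fin 3) (Fin 3) ℝ) (hQ : Q.PosDef) (p : Fin 6 → ℝ)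
    (hp0 : ∀ s, 0 ≤ p s) (r : Fin 6 → Fin 3 → ℤ)
    (hp : ∀ u v : Fin 3 → ℝ, u ⬝ᵥ Q *ᵥ v = ∑ s, p s * ((toR (r s) ⬝ᵥ u) * (toR (r s) ⬝ᵥ v)))
    (s : Fin 6) :
    p s * (toR (r s) ⬝ᵥ Q⁻¹ *ᵥ toR (r s)) ≤ 1 := by
  set x := Q⁻¹ *ᵥ toR (r s) with hx
  have h1 : x ⬝ᵥ (Q *ᵥ x) = toR (r s) ⬝ᵥ x := by
    rw [hx, mul_inv_v Q hQ, dotProduct_comm]
  have h2 := hp x x
  have h3 : p s * ((toR (r s) ⬝ᵥ x) * (toR (r s) ⬝ᵥ x)) ≤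
      ∑ t, p t * ((toR (r t) ⬝ᵥ x) * (toR (r t) ⬝ᵥ x)) :=
    single_le_sum (f := fun t => p t * ((toR (r t) ⬝ᵥ x) * (toR (r t) ⬝ᵥ x)))
      (fun i _ => mul_nonneg (hp0 i) (mul_self_nonneg _)) (mem_univ s)
  have h4 : p s * ((toR (r s) ⬝ᵥ x) * (toR (r s) ⬝ᵥ x)) ≤ toR (r s) ⬝ᵥ x :=
    le_of_le_of_eq h3 (h2.symm.trans h1)
  by_contra hcon
  push Not at hcon
  set q := toR (r s) ⬝ᵥ x with hsd
  have hs0 : 0 < q := by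
    by_contra h
    push Not at h
    have := mul_nonpos_of_nonneg_of_nonpos (hp0 s) h
    linarith
  nlinarith

end Pool.Agent.Helper92.UB
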