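import Mathlib
import Pool.Agent.Helper24.UB.AsDefs
import Pool.Agent.Helper92.UB.Leaves

set_option autoImplicit false

/-!
# The identities (A3) - (A6) for the equilibrium form with weights
-/

namespace Pool.Agent.Helper92.UB.As

open Finset Matrix Pool.Agent.Helper22.Sym
open Pool.Agent.Helper12.LW (LFree chainP)
open Pool.Agent.Helper24.UB (EquiK Capped)
open Pool.Agent.Helper92.UB (symm_move mul_inv_v inv_move toR_dot)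

/-- The inverse form as a dual pairing. -/
theorem w_spec {K : Set (Fin 3 → ℝ)} {ε Y : ℝ} {ι : Type} [Fintype ι] (e : EquiK K ε Y ι)
    (u x : Fin 3 → ℝ) :
    (e.Q⁻¹ *ᵥ u) ⬝ᵥ e.Q *ᵥ x = u ⬝ᵥ x := by
  rw [symm_move e.Q e.hpd, mul_inv_v e.Q e.hpd]

/-- (A3) the normalisation -/
theorem norm_sum {K : Set (Fin 3 → ℝ)} {ε Y : ℝ} {ι : Type} [Fintype ι] (e : EquiK K ε Y ι)
    (p : Fin 6 → ℝ) (r : Fin 6 → Fin 3 → ℤ)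
    (hp : ∀ u v : Fin 3 → ℝ, u ⬝ᵥ e.Q *ᵥ v = ∑ s, p s * ((toR (r s) ⬝ᵥ u) * (toR (r s) ⬝ᵥ v))) :
    ∑ s, p s * ∑ i, e.y i * ∑ k, (e.v i k ⬝ᵥ e.Q⁻¹ *ᵥ toR (r s)) *
      ((r s ⬝ᵥ chainP (e.f i) (e.z i) (e.σ i) k : ℤ) : ℝ) = 1 := by
  have h1 : ∀ v P : Fin 3 → ℝ, ∑ s, p s * ((v ⬝ᵥ e.Q⁻¹ *ᵥ toR (r s)) * (toR (r s) ⬝ᵥ P))
      = v ⬝ᵥ P := by
    intro v P
    have h := hp (e.Q⁻¹ *ᵥ v) P
    rw [w_spec e] at h
    rw [h]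
    apply sum_congr rfl
    intro s _
    rw [inv_move e.Q e.hpd, dotProduct_comm (e.Q⁻¹ *ᵥ v)]
  have h2 : ∀ i, ∑ s, p s * ∑ k, (e.v i k ⬝ᵥ e.Q⁻¹ *ᵥ toR (r s)) *
      ((r s ⬝ᵥ chainP (e.f i) (e.z i) (e.σ i) k : ℤ) : ℝ) = 1 := by
    intro i
    rw [← e.hv1 i]
    simp only [mul_sum]
    rw [sum_comm]
    apply sum_congr rfl
    intro k _
    rw [← h1 (e.v i k) (toR (chainP (e.f i) (e.z i) (e.σ i) k))]
    apply sum_congr rfl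
    intro s _
    rw [toR_dot]
  calc ∑ s, p s * ∑ i, e.y i * ∑ k, (e.v i k ⬝ᵥ e.Q⁻¹ *ᵥ toR (r s)) *
      ((r s ⬝ᵥ chainP (e.f i) (e.z i) (e.σ i) k : ℤ) : ℝ)
      = ∑ i, e.y i * ∑ s, p s * ∑ k, (e.v i k ⬝ᵥ e.Q⁻¹ *ᵥ toR (r s)) *
      ((r s ⬝ᵥ chainP (e.f i) (e.z i) (e.σ i) k : ℤ) : ℝ) := by
        simp only [mul_sum (s := (univ : Finset ι))]
        rw [sum_comm]
        apply sum_congr rfl
        intro i _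
        rw [mul_sum (s := (univ : Finset (Fin 6)))]
        exact sum_congr rfl fun s _ => by ring
    _ = 1 := by simp only [h2, mul_one]; exact e.ysum

/-- (A4) a functional on a difference -/
theorem width_eq {K : Set (Fin 3 → ℝ)} {ε Y : ℝ} {ι : Type} [Fintype ι] (e : EquiK K ε Y ι)
    (u d : Fin 3 → ℝ) :
    u ⬝ᵥ d = ε * ((e.Q⁻¹ *ᵥ u) ⬝ᵥ d) +
      ∑ i, e.y i * ∑ k, (e.v i k ⬝ᵥ e.Q⁻¹ *ᵥ u) * (e.v i k ⬝ᵥ d) / e.κ i k := by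
  rw [← w_spec e u d, e.hQ]

/-- (A5) -/
theorem kappa_eq {K : Set (Fin 3 → ℝ)} {ε Y : ℝ} {ι : Type} [Fintype ι] (e : EquiK K ε Y ι)
    (u : Fin 3 → ℝ) :
    u ⬝ᵥ e.Q⁻¹ *ᵥ u = ε * ((e.Q⁻¹ *ᵥ u) ⬝ᵥ (e.Q⁻¹ *ᵥ u)) +
      ∑ i, e.y i * ∑ k, (e.v i k ⬝ᵥ e.Q⁻¹ *ᵥ u) ^ 2 / e.κ i k := by
  have h := width_eq e u (e.Q⁻¹ *ᵥ u)
  rw [h]
  congr 1
  exact sum_congr rfl fun i _ => by
    congr 1
    exact sum_congr rfl fun k _ => by ring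

/-- (A6) the gaps of two points of `K`: `ρ k = v k · (x - x')` -/
theorem rho_props {K : Set (Fin 3 → ℝ)} {ε Y : ℝ} {ι : Type} [Fintype ι] (e : EquiK K ε Y ι) (i : ι)
    (x x' : Fin 3 → ℝ) (hx : x ∈ K) (hx' : x' ∈ K) :
    ∑ k, e.v i k ⬝ᵥ (x - x') = 0 ∧ (∀ k, |e.v i k ⬝ᵥ (x - x')| ≤ e.κ i k) ∧
      ∑ k, |e.v i k ⬝ᵥ (x - x')| ≤ 2 := by
  set P : Fin 4 → Fin 3 → ℝ := fun k => toR (chainP (e.f i) (e.z i) (e.σ i) k) with hP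
  have hsum : ∀ w : Fin 3 → ℝ, ∑ k, (e.v i k ⬝ᵥ P k - e.v i k ⬝ᵥ w) = 1 := by
    intro w
    rw [sum_sub_distrib, ← sum_dotProduct, e.hv0 i, zero_dotProduct, sub_zero]
    exact e.hv1 i
  have h0 : ∀ k, ∀ w ∈ K, 0 ≤ e.v i k ⬝ᵥ P k - e.v i k ⬝ᵥ w := by
    intro k w hw
    have := e.hsep i k w hw
    simp only [hP]; linarith
  have hg : ∀ k, ∀ w ∈ K, e.v i k ⬝ᵥ P k - e.v i k ⬝ᵥ w ≤ e.κ i k := by
    intro k w hw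
    exact (e.hcap i).gap k w hw
  refine ⟨?_, ?_, ?_⟩
  · rw [← sum_dotProduct, e.hv0 i, zero_dotProduct]
  · intro k
    rw [dotProduct_sub, abs_le]
    constructor
    · linarith [h0 k x' hx', hg k x hx]
    · linarith [h0 k x hx, hg k x' hx']
  · calc ∑ k, |e.v i k ⬝ᵥ (x - x')|
        ≤ ∑ k, ((e.v i k ⬝ᵥ P k - e.v i k ⬝ᵥ x) + (e.v i k ⬝ᵥ P k - e.v i k ⬝ᵥ x')) := by
          apply sum_le_sum
          intro k _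
          rw [dotProduct_sub, abs_le]
          constructor
          · linarith [h0 k x' hx', h0 k x hx]
          · linarith [h0 k x hx, h0 k x' hx']
      _ = 2 := by rw [sum_add_distrib, hsum, hsum]; norm_num

end Pool.Agent.Helper92.UB.As
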